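import Pool.Agent.Helper66.SB.GoalsB

/-!
# Project SB (MP_d3128a_ag): the irreducible curve at special points of the cubic `y = x^3`
-/

set_option autoImplicit false

open Module MvPolynomial

noncomputable section

namespace Pool.Agent.Helper81.SB

open Pool.Agent.Helper66.SB Helper18.Shgh

/-- restriction to the cubic `y = x^3` -/
def rg : R2 →ₐ[ℂ] Polynomial ℂ := aeval ![Polynomial.X, Polynomial.X ^ 3]

theorem rg_monomial (e : Fin 2 →₀ ℕ) (c : ℂ) :
    rg (monomial e c) = Polynomial.C c * Polynomial.X ^ (e 0 + 3 * e 1) := by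
  rw [rg, aeval_monomial, Finsupp.prod_fintype _ _ (by simp), Fin.prod_univ_two, pow_add, pow_mul]
  rfl

theorem eval_rg (z : ℂ) (F : R2) : (rg F).eval z = MvPolynomial.eval (ga z) F := by
  have h : (Polynomial.aeval z).comp rg = (MvPolynomial.aeval (ga z) : R2 →ₐ[ℂ] ℂ) := by
    apply MvPolynomial.algHom_ext
    intro i
    fin_cases i <;> simp [rg, ga]
  have h1 := DFunLike.congr_fun h F
  rw [AlgHom.comp_apply, Polynomial.coe_aeval_eq_eval] at h1
  rw [h1]
  rfl

theorem rg_dvd {z : ℂ} {m : ℕ} {F : R2} (h : F ∈ mI (ga z) ^ m) :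
    (Polynomial.X - Polynomial.C z) ^ m ∣ rg F := by
  have h1 : mI (ga z) ≤ Ideal.comap rg (Ideal.span {Polynomial.X - Polynomial.C z}) := by
    intro G hG
    rw [Ideal.mem_comap, Ideal.mem_span_singleton, Polynomial.dvd_iff_isRoot,
      Polynomial.IsRoot.def, eval_rg]
    exact mem_mI_iff.1 hG
  have h2 := Ideal.pow_right_mono h1 m h
  have h3 := Ideal.le_comap_pow rg m h2
  rw [Ideal.mem_comap, Ideal.span_singleton_pow, Ideal.mem_span_singleton] at h3
  exact h3

theorem degree_two (e : Fin 2 →₀ ℕ) : e.degree = e 0 + e 1 := by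
  rw [Finsupp.degree_eq_sum, Fin.sum_univ_two]

theorem rg_coeff (F : R2) (j : ℕ) :
    (rg F).coeff j = ∑ e ∈ F.support, if j = e 0 + 3 * e 1 then coeff e F else 0 := by
  conv_lhs => rw [F.as_sum]
  rw [map_sum, Polynomial.finsetSum_coeff]
  refine Finset.sum_congr rfl fun e _ => ?_
  rw [rg_monomial, Polynomial.coeff_C_mul_X_pow]

theorem rg_natDegree {n : ℕ} {F : R2} (h : F ∈ V n) : (rg F).natDegree ≤ 3 * n := by
  rw [Polynomial.natDegree_le_iff_coeff_eq_zero]
  intro j hj
  rw [rg_coeff]
  refine Finset.sum_eq_zero fun e he => if_neg ?_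
  have h1 := mem_V'.1 h e (mem_support_iff.1 he)
  rw [degree_two] at h1
  have h2 : e 0 + e 1 ≤ n := by exact_mod_cast h1
  omega

theorem rg_top {n : ℕ} {F : R2} (h : F ∈ V n) :
    (rg F).coeff (3 * n) = coeff (Finsupp.single 1 n) F := by
  rw [rg_coeff]
  have h3 : ∀ e ∈ F.support, (if 3 * n = e 0 + 3 * e 1 then coeff e F else 0) =
      if e = Finsupp.single 1 n then coeff e F else 0 := by
    intro e he
    have h1 := mem_V'.1 h e (mem_support_iff.1 he)
    rw [degree_two] at h1
    have h2 : e 0 + e 1 ≤ n := by exact_mod_cast h1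
    by_cases h4 : e = Finsupp.single 1 n
    · rw [if_pos h4, if_pos]
      rw [h4, Finsupp.single_eq_same, Finsupp.single_eq_of_ne (by decide)]
      omega
    · rw [if_neg h4, if_neg]
      intro h5
      apply h4
      have h6 : e 1 = n := by omega
      have h7 : e 0 = 0 := by omega
      ext i
      fin_cases i
      · show e 0 = (Finsupp.single (1 : Fin 2) n) 0
        rw [Finsupp.single_eq_of_ne (by decide), h7]
      · show e 1 = (Finsupp.single (1 : Fin 2) n) 1
        rw [Finsupp.single_eq_same, h6]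
  rw [Finset.sum_congr rfl h3, Finset.sum_ite_eq']
  split_ifs with h8
  · rfl
  · rw [notMem_support_iff.1 h8]

theorem rg_next {n : ℕ} {F : R2} (h : F ∈ V n) (hn : 1 ≤ n) : (rg F).coeff (3 * n - 1) = 0 := by
  rw [rg_coeff]
  refine Finset.sum_eq_zero fun e he => if_neg ?_
  have h1 := mem_V'.1 h e (mem_support_iff.1 he)
  rw [degree_two] at h1
  have h2 : e 0 + e 1 ≤ n := by exact_mod_cast h1
  omega

/-- A relation `∑ c_x T_x = 0` with natural coefficients is trivial. -/
theorem rel_nat {ι : Type*} [Fintype ι] {T : ι → ℂ} (hT : LinearIndependent ℚ T) (c : ι → ℕ)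
    (h : ∑ x, (c x : ℂ) * T x = 0) (x : ι) : c x = 0 := by
  have h1 : ∑ x, (c x : ℚ) • T x = 0 := by
    rw [← h]
    refine Finset.sum_congr rfl fun x _ => ?_
    rw [Rat.smul_def]
    push_cast
    rfl
  have h2 := Fintype.linearIndependent_iff.1 hT (fun x => (c x : ℚ)) h1 x
  exact_mod_cast h2

theorem sum_roots_ne {ι : Type*} [Fintype ι] {T : ι → ℂ} (hT : LinearIndependent ℚ T)
    (W : ι → ℕ) {A B : Polynomial ℂ}
    (h : A * B = ∏ x, (Polynomial.X - Polynomial.C (T x)) ^ W x) (hA : 1 ≤ A.natDegree) :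
    A.nextCoeff ≠ 0 := by
  classical
  have hP : (∏ x, (Polynomial.X - Polynomial.C (T x)) ^ W x) ≠ 0 :=
    Finset.prod_ne_zero_iff.2 fun x _ => pow_ne_zero _ (Polynomial.X_sub_C_ne_zero _)
  have hA0 : A ≠ 0 := fun h0 => hP (by rw [← h, h0, zero_mul])
  have hmem : ∀ z ∈ A.roots, z ∈ Set.range T := by
    intro z hz
    rw [Polynomial.mem_roots hA0, Polynomial.IsRoot.def] at hz
    have h1 : (∏ x, (Polynomial.X - Polynomial.C (T x)) ^ W x).eval z = 0 := by
      rw [← h, Polynomial.eval_mul, hz, zero_mul]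
    rw [Polynomial.eval_prod] at h1
    obtain ⟨x, _, hx⟩ := Finset.prod_eq_zero_iff.1 h1
    rw [Polynomial.eval_pow, Polynomial.eval_sub, Polynomial.eval_X, Polynomial.eval_C] at hx
    exact ⟨x, (sub_eq_zero.1 (eq_zero_of_pow_eq_zero hx)).symm⟩
  obtain ⟨s, hs⟩ : ∃ s : Multiset ι, s.map T = A.roots := by
    have h2 : ∀ m : Multiset ℂ, (∀ z ∈ m, z ∈ Set.range T) → ∃ s : Multiset ι, s.map T = m := by
      intro m
      induction m using Multiset.induction with
      | empty => intro _; exact ⟨0, rfl⟩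
      | cons a m ih =>
        intro hm
        obtain ⟨s, hs⟩ := ih fun z hz => hm z (Multiset.mem_cons_of_mem hz)
        obtain ⟨x, hx⟩ := hm a (Multiset.mem_cons_self a m)
        exact ⟨x ::ₘ s, by rw [Multiset.map_cons, hs, hx]⟩
    exact h2 _ hmem
  have hsp : A.Splits := IsAlgClosed.splits A
  rw [hsp.nextCoeff_eq_neg_sum_roots_mul_leadingCoeff]
  intro h3
  have h4 : A.roots.sum = 0 := by
    rcases mul_eq_zero.1 h3 with h5 | h5
    · exact absurd (neg_eq_zero.1 h5) (Polynomial.leadingCoeff_ne_zero.2 hA0)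
    · exact h5
  rw [← hs, Finset.sum_multiset_map_count] at h4
  have h5 : ∑ x, ((s.count x : ℕ) : ℂ) * T x = 0 := by
    rw [← h4]
    symm
    refine (Finset.sum_subset (Finset.subset_univ _) ?_).trans ?_
    · intro x _ hx
      rw [Multiset.mem_toFinset, ← Multiset.count_eq_zero] at hx
      rw [hx, zero_smul]
    · refine Finset.sum_congr rfl fun x _ => ?_
      rw [nsmul_eq_mul]
  have h6 := rel_nat hT _ h5
  have h7 : s = 0 := by
    rw [Multiset.eq_zero_iff_forall_notMem]
    intro x hx
    exact (Multiset.count_pos.2 hx).ne' (h6 x)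
  have h8 : A.roots.card = A.natDegree := by
    exact hsp.natDegree_eq_card_roots.symm
  rw [← hs, h7, Multiset.map_zero, Multiset.card_zero] at h8
  omega

theorem exists_indep (ι : Type) [Fintype ι] : ∃ T : ι → ℂ, LinearIndependent ℚ T := by
  have h : ¬ Module.Finite ℚ ℂ := by
    intro hf
    have h1 := Module.rank_lt_aleph0 ℚ ℂ
    rw [Complex.rank_rat_complex] at h1
    exact absurd h1 (not_lt.2 Cardinal.aleph0_le_continuum)
  have hb := Module.Basis.ofVectorSpace ℚ ℂ
  have hinf : Infinite (Module.Basis.ofVectorSpaceIndex ℚ ℂ) := by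
    by_contra hc
    rw [not_infinite_iff_finite] at hc
    exact h (Module.Finite.of_basis hb)
  obtain ⟨f⟩ : Nonempty (ι ↪ Module.Basis.ofVectorSpaceIndex ℚ ℂ) :=
    ⟨(Fintype.equivFin ι).toEmbedding.trans
      (Fin.valEmbedding.trans (Infinite.natEmbedding _))⟩
  exact ⟨fun x => hb (f x), hb.linearIndependent.comp _ f.injective⟩

theorem gIRR (hSUR : G_SUR) : G_IRR := by
  classical
  intro r k u w hSq
  have hsum := hSq.sum
  have hk : 1 ≤ k := by
    rcases Nat.eq_zero_or_pos k with h | h
    · have h1 := hSq.sqr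
      have h2 := hSq.pos
      rw [h] at h1
      norm_num at h1
      omega
    · exact h
  obtain ⟨N, hN⟩ : ∃ N : ℕ, ∑ i, w i + N + 1 = 3 * k := ⟨3 * k - 1 - ∑ i, w i, by omega⟩
  obtain ⟨T, hT⟩ := exists_indep (Fin r ⊕ Fin N)
  have hTinj : Function.Injective T := hT.injective
  set W : Fin r ⊕ Fin N → ℕ := Sum.elim w (fun _ => 1) with hW
  have hWsum : ∑ x, W x + 1 = 3 * k := by
    rw [Fintype.sum_sum_type]
    simp only [hW, Sum.elim_inl, Sum.elim_inr, Finset.sum_const, Finset.card_univ, Fintype.card_fin,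
      smul_eq_mul, mul_one]
    exact hN
  set σ : ℂ := -∑ x, (W x : ℂ) * T x with hσ
  set Q : Polynomial ℂ := ∏ x, (Polynomial.X - Polynomial.C (T x)) ^ W x with hQ
  have hQm : Q.Monic := Polynomial.monic_prod_of_monic _ _ fun x _ =>
    (Polynomial.monic_X_sub_C _).pow _
  have hQd : Q.natDegree = ∑ x, W x := by
    rw [hQ, Polynomial.natDegree_prod_of_monic _ _ fun x _ => (Polynomial.monic_X_sub_C _).pow _]
    refine Finset.sum_congr rfl fun x _ => ?_
    rw [(Polynomial.monic_X_sub_C _).natDegree_pow, Polynomial.natDegree_X_sub_C, mul_one]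
  have hQn : Q.nextCoeff = σ := by
    rw [hQ, Polynomial.Monic.nextCoeff_prod _ _ fun x _ => (Polynomial.monic_X_sub_C _).pow _, hσ,
      ← Finset.sum_neg_distrib]
    refine Finset.sum_congr rfl fun x _ => ?_
    rw [(Polynomial.monic_X_sub_C _).nextCoeff_pow, Polynomial.nextCoeff_X_sub_C, nsmul_eq_mul,
      mul_neg]
  set g : Polynomial ℂ := Q * (Polynomial.X - Polynomial.C σ) with hg
  have hgm : g.Monic := hQm.mul (Polynomial.monic_X_sub_C _)
  have hgd : g.natDegree = 3 * k := by
    rw [hg, hQm.natDegree_mul (Polynomial.monic_X_sub_C _), hQd, Polynomial.natDegree_X_sub_C]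
    exact hWsum
  have hgn : g.nextCoeff = 0 := by
    rw [hg, hQm.nextCoeff_mul (Polynomial.monic_X_sub_C _), hQn, Polynomial.nextCoeff_X_sub_C,
      add_neg_cancel]
  have hgc : g.coeff (3 * k - 1) = 0 := by
    rw [Polynomial.nextCoeff_of_natDegree_pos (by omega), hgd] at hgn
    exact hgn
  have ht : LinearIndependent ℚ (fun i => T (Sum.inl i)) := hT.comp _ Sum.inl_injective
  have hfac : ∀ i : Fin r, g = (Polynomial.X - Polynomial.C (T (Sum.inl i))) ^ w i *
      ((∏ x ∈ Finset.univ.erase (Sum.inl i), (Polynomial.X - Polynomial.C (T x)) ^ W x) *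
        (Polynomial.X - Polynomial.C σ)) := by
    intro i
    rw [hg, hQ, ← Finset.mul_prod_erase Finset.univ _ (Finset.mem_univ (Sum.inl i)), mul_assoc]
    rfl
  obtain ⟨hdim, hsur⟩ := hSUR r k u w hSq (fun i => T (Sum.inl i)) ht
  obtain ⟨F, hF, hFg⟩ := hsur g hgd.le hgc fun i => ⟨_, hfac i⟩
  have hFg' : rg F = g := hFg
  have hFV : F ∈ V ((k : ℕ) : ℤ) := hF.1
  have htop : coeff (Finsupp.single 1 k) F = 1 := by
    rw [← rg_top hFV, hFg', ← hgd]
    exact hgm
  have hF0 : F ≠ 0 := by
    intro h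
    rw [h, coeff_zero] at htop
    exact zero_ne_one htop
  have hFd : F.totalDegree = k := by
    apply le_antisymm
    · rcases mem_V.1 hFV with h | h
      · exact absurd h hF0
      · exact_mod_cast h
    · have h1 : Finsupp.single 1 k ∈ F.support := by
        rw [MvPolynomial.mem_support_iff, htop]
        exact one_ne_zero
      have h2 := le_totalDegree h1
      rw [Finsupp.sum_single_index rfl] at h2
      exact h2
  have memV : ∀ A : R2, A ∈ V ((A.totalDegree : ℕ) : ℤ) := fun A => mem_V.2 (Or.inr le_rfl)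
  refine ⟨fun i => T (Sum.inl i), F, ht, ⟨?_, hF, ?_, ?_⟩, hdim⟩
  · -- irreducible
    constructor
    · intro hu
      have h1 : IsUnit g := by
        rw [← hFg']
        exact hu.map rg
      have h2 := Polynomial.natDegree_eq_zero_of_isUnit h1
      omega
    · intro A B hAB
      have hA0 : A ≠ 0 := fun h => hF0 (by rw [hAB, h, zero_mul])
      have hB0 : B ≠ 0 := fun h => hF0 (by rw [hAB, h, mul_zero])
      have hd : A.totalDegree + B.totalDegree = k := by
        rw [← hFd, hAB, totalDegree_mul_of_isDomain hA0 hB0]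
      have unit_of : ∀ A : R2, A ≠ 0 → A.totalDegree = 0 → IsUnit A := by
        intro A hA h
        rw [totalDegree_eq_zero_iff_eq_C] at h
        rw [h]
        refine IsUnit.map C (isUnit_iff_ne_zero.2 ?_)
        intro h0
        rw [h0, C_0] at h
        exact hA h
      rcases Nat.eq_zero_or_pos A.totalDegree with ha | ha
      · exact Or.inl (unit_of A hA0 ha)
      rcases Nat.eq_zero_or_pos B.totalDegree with hb | hb
      · exact Or.inr (unit_of B hB0 hb)
      exfalso
      have hm : rg A * rg B = g := by rw [← map_mul, ← hAB, hFg']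
      have hgA : rg A ≠ 0 := fun h => hgm.ne_zero (by rw [← hm, h, zero_mul])
      have hgB : rg B ≠ 0 := fun h => hgm.ne_zero (by rw [← hm, h, mul_zero])
      have hdeg : (rg A).natDegree + (rg B).natDegree = 3 * k := by
        rw [← Polynomial.natDegree_mul hgA hgB, hm, hgd]
      have h1 := rg_natDegree (memV A)
      have h2 := rg_natDegree (memV B)
      have hdA : (rg A).natDegree = 3 * A.totalDegree := by omega
      have hdB : (rg B).natDegree = 3 * B.totalDegree := by omega
      have hnA : (rg A).nextCoeff = 0 := by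
        rw [Polynomial.nextCoeff_of_natDegree_pos (by omega), hdA]
        exact rg_next (memV A) ha
      have hnB : (rg B).nextCoeff = 0 := by
        rw [Polynomial.nextCoeff_of_natDegree_pos (by omega), hdB]
        exact rg_next (memV B) hb
      have hdvd : (Polynomial.X - Polynomial.C σ) ∣ rg A * rg B := by
        rw [hm, hg]
        exact dvd_mul_left _ _
      rcases (Polynomial.prime_X_sub_C σ).dvd_or_dvd hdvd with ⟨D, hD⟩ | ⟨D, hD⟩
      · have h3 : rg B * D = Q := by
          apply mul_right_cancel₀ (Polynomial.X_sub_C_ne_zero σ)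
          rw [← hg, ← hm, hD]
          ring
        exact sum_roots_ne hT W (h3.trans hQ) (by omega) hnB
      · have h3 : rg A * D = Q := by
          apply mul_right_cancel₀ (Polynomial.X_sub_C_ne_zero σ)
          rw [← hg, ← hm, hD]
          ring
        exact sum_roots_ne hT W (h3.trans hQ) (by omega) hnA
  · rw [htop]
    exact one_ne_zero
  · intro i hmem
    have hmem' : F ∈ mI (ga (T (Sum.inl i))) ^ (w i + 1) := hmem
    have h1 := rg_dvd hmem'
    rw [hFg', pow_succ, hfac i] at h1
    have h2 := (mul_dvd_mul_iff_left (pow_ne_zero _ (Polynomial.X_sub_C_ne_zero _))).1 h1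
    rw [Polynomial.dvd_iff_isRoot, Polynomial.IsRoot.def, Polynomial.eval_mul,
      Polynomial.eval_prod] at h2
    rcases mul_eq_zero.1 h2 with h3 | h3
    · obtain ⟨x, hx, hx0⟩ := Finset.prod_eq_zero_iff.1 h3
      rw [Polynomial.eval_pow, Polynomial.eval_sub, Polynomial.eval_X, Polynomial.eval_C] at hx0
      have h4 := hTinj (sub_eq_zero.1 (eq_zero_of_pow_eq_zero hx0))
      exact (Finset.mem_erase.1 hx).1 h4.symm
    · rw [Polynomial.eval_sub, Polynomial.eval_X, Polynomial.eval_C, sub_eq_zero] at h3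
      have h4 : ∑ x, (((W x + if x = Sum.inl i then 1 else 0 : ℕ)) : ℂ) * T x = 0 := by
        push_cast
        simp only [add_mul, ite_mul, one_mul, zero_mul]
        rw [Finset.sum_add_distrib, Finset.sum_ite_eq' Finset.univ (Sum.inl i),
          if_pos (Finset.mem_univ _), h3, hσ, add_neg_cancel]
      have h5 := rel_nat hT (fun x => W x + if x = Sum.inl i then 1 else 0) h4 (Sum.inl i)
      simp at h5

end Pool.Agent.Helper81.SB
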