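import Pool.Agent.Helper81.SB.Core

/-!
# Project SB: the construction of the MAD family from a rich family of colourings (`Goal_MT`)
-/

set_option autoImplicit false

namespace Pool.Agent.Helper81.SB

open Set Cardinal Filter

/-- Ulam matrix argument (after helper75): a function taking each value of a family of size at most
`ℵ₁` on a stationary set -/
theorem exists_assignment {X : Type} (ℱ : Set X) (hℱ : #ℱ ≤ ℵ₁) (f₀ : X) (hf₀ : f₀ ∈ ℱ) :
    ∃ e : W → X, (∀ γ, (∀ β, ¬ β < γ) → e γ = f₀) ∧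
      ∀ f ∈ ℱ, ∀ F : W → W, ∃ γ, e γ = f ∧ ∀ β < γ, F β < γ := by
  classical
  have hi : ∀ γ : W, ∃ i : W → ℕ, InjOn i (Iio γ) :=
    fun γ => (countable_iff_exists_injOn.1 (W_Iio γ))
  choose i hi using hi
  let Z : ℕ → W → Set W := fun n α => {γ | α < γ ∧ i γ α = n}
  have hstat : ∀ α : W, ∃ n, ∀ F : W → W, ∃ γ ∈ Z n α, ∀ β < γ, F β < γ := by
    intro α
    by_contra hcon
    push Not at hcon
    choose F hF using hcon
    have hsup : ∀ β : W, ∃ δ, ∀ n, F n β < δ := by
      intro β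
      obtain ⟨δ, hδ⟩ := W_bdd (range (fun n => F n β)) (countable_range _)
      exact ⟨δ, fun n => hδ _ ⟨n, rfl⟩⟩
    choose F' hF' using hsup
    obtain ⟨γ, hαγ, hγ⟩ := exists_closed F' α
    obtain ⟨β, hβ, hβ'⟩ := hF (i γ α) γ ⟨hαγ, rfl⟩
    exact absurd ((hF' β _).trans (hγ β hβ)) (not_lt.2 hβ')
  choose N hN using hstat
  have huniv : ¬ (univ : Set W).Countable := fun h =>
    W_not_countable (countable_univ_iff.1 h)
  obtain ⟨n, hn'⟩ := exists_fiber huniv N
  have hn : ¬ {α : W | N α = n}.Countable := by simpa using hn'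
  have hW : ℵ₁ ≤ #{α : W | N α = n} := by
    rw [aleph_one_le_iff]
    rw [← not_le, le_aleph0_iff_set_countable]
    exact hn
  have hsurj : ∃ g : {α : W | N α = n} → ℱ, Function.Surjective g := by
    have hle : #ℱ ≤ #{α : W | N α = n} := hℱ.trans hW
    obtain ⟨emb⟩ := Cardinal.le_def _ _ |>.1 hle
    have : Nonempty ℱ := ⟨⟨f₀, hf₀⟩⟩
    exact ⟨Function.invFun emb, Function.invFun_surjective emb.injective⟩
  obtain ⟨g, hg⟩ := hsurj
  let e : W → X := fun γ =>
    if h : ∃ α : {α : W | N α = n}, γ ∈ Z n α.1 then (g h.choose).1 else f₀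
  refine ⟨e, ?_, ?_⟩
  · intro γ hγ
    have : ¬ ∃ α : {α : W | N α = n}, γ ∈ Z n α.1 := by
      rintro ⟨α, hα⟩
      exact hγ _ hα.1
    simp only [e]
    rw [dif_neg this]
  · intro f hf F
    obtain ⟨α, hα⟩ := hg ⟨f, hf⟩
    have hNα : N α.1 = n := α.2
    obtain ⟨γ, hγX, hγF⟩ := hN α.1 F
    rw [hNα] at hγX
    refine ⟨γ, ?_, hγF⟩
    have hex : ∃ α : {α : W | N α = n}, γ ∈ Z n α.1 := ⟨α, hγX⟩
    have hspec := hex.choose_spec
    have heq : hex.choose = α := by
      apply Subtype.ext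
      exact hi γ hspec.1 hγX.1 (hspec.2.trans hγX.2.symm)
    simp only [e]
    rw [dif_pos hex, heq, hα]

/-- the recursive construction -/
noncomputable def PP (e : W → (ℕ → ℕ → ℕ)) (i : W → W → ℕ) (dec : W → ℕ → W) : W → PCode :=
  (wellFounded_lt (α := W)).fix (fun γ ih => stage γ (e γ) (i γ) (dec γ) ih)

theorem PP_eq (e : W → (ℕ → ℕ → ℕ)) (i : W → W → ℕ) (dec : W → ℕ → W) (γ : W) :
    PP e i dec γ = stage γ (e γ) (i γ) (dec γ) (fun β _ => PP e i dec β) := by
  unfold PP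
  rw [WellFounded.fix_eq]

theorem main_abs (𝒳 : Set (ℕ → ℕ → ℕ)) (h𝒳 : #𝒳 ≤ ℵ₁)
    (hrich : ∀ b : Set ℕ, b.Infinite → ∃ χ ∈ 𝒳, Rich χ b) :
    ∃ P : W → PCode, (⋃ γ, Fam (P γ)).Infinite ∧
      (∀ A ∈ ⋃ γ, Fam (P γ), ∀ B ∈ ⋃ γ, Fam (P γ), A ≠ B → (A ∩ B).Finite) ∧
      ∀ b : Set ℕ, b.Infinite → ∃ A ∈ ⋃ γ, Fam (P γ), (A ∩ b).Infinite := by
  classical
  obtain ⟨χ₀, hχ₀, hrich₀⟩ := hrich univ infinite_univ
  obtain ⟨e, he0, he⟩ := exists_assignment 𝒳 h𝒳 χ₀ hχ₀
  have hi : ∀ γ : W, ∃ i : W → ℕ, InjOn i (Iio γ) :=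
    fun γ => (countable_iff_exists_injOn.1 (W_Iio γ))
  choose i hi using hi
  have hdec : ∀ γ : W, ∃ dec : ℕ → W, ∀ α < γ, dec (i γ α) = α := by
    intro γ
    refine ⟨Function.invFunOn (i γ) (Iio γ), ?_⟩
    intro α hα
    exact (hi γ).leftInvOn_invFunOn hα
  choose dec hdec using hdec
  let P : W → PCode := PP e i dec
  have hP : ∀ γ, P γ = stage γ (e γ) (i γ) (dec γ) (fun β _ => P β) := PP_eq e i dec
  have hcoh : ∀ γ, Coh (P γ) := by
    intro γ
    rw [hP γ]
    exact stage_coh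
  have horth : ∀ β γ : W, β < γ → ∀ A ∈ Fam (P γ), ∀ B ∈ Fam (P β), (A ∩ B).Finite := by
    intro β γ hβγ A hA B hB
    rw [hP γ] at hA
    exact stage_orth (Q := fun β _ => P β) hA hβγ hB
  refine ⟨P, ?_, ?_, ?_⟩
  · -- infinitely many members at the least stage
    obtain ⟨γ₀, -, hmin⟩ := WellFounded.has_min (wellFounded_lt (α := W)) univ univ_nonempty
    have hno : ∀ β, ¬ β < γ₀ := fun β => hmin β (mem_univ _)
    have heγ : e γ₀ = χ₀ := he0 γ₀ hno
    obtain ⟨Pc, a, h1, h2, h3⟩ := hrich₀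
    obtain ⟨j₀, hj₀⟩ := (h3 (hc ∅ (fun _ _ _ => 0))).nonempty
    have hex : ∀ m₀ : Pc j₀, ∃ A ∈ Fam (P γ₀), m₀.1 ∈ A ∧ ∀ x ∈ A, m₀.1 ≤ x := by
      rintro ⟨m₀, hm₀⟩
      have := stage_catch (γ := γ₀) (χ := e γ₀) (i := i γ₀) (dec := dec γ₀)
        (Q := fun β _ => P β) univ Pc a h1 (by rw [heγ]; exact h2) h3 (i γ₀)
        (fun α hα => absurd hα (hno α)) (dec γ₀) (fun α hα => absurd hα (hno α))
        (fun _ _ _ => γ₀) (fun α hα => absurd hα (hno α)) (fun α hα => absurd hα (hno α))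
        j₀ hj₀ m₀ hm₀
      obtain ⟨A, hA, -, hmA⟩ := this
      rw [← hP γ₀] at hA
      exact ⟨A, hA, hmA⟩
    choose A hA hmA hle using hex
    have hinj : Function.Injective A := by
      intro x y hxy
      apply Subtype.ext
      apply le_antisymm
      · exact hle x y.1 (by rw [hxy]; exact hmA y)
      · exact hle y x.1 (by rw [← hxy]; exact hmA x)
    have hinf : Infinite (Pc j₀) := (h1 j₀).1.to_subtype
    exact Set.infinite_of_injective_forall_mem hinj (fun x => mem_iUnion.2 ⟨γ₀, hA x⟩)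
  · intro A hA B hB hAB
    obtain ⟨γ, hAγ⟩ := mem_iUnion.1 hA
    obtain ⟨β, hBβ⟩ := mem_iUnion.1 hB
    rcases lt_trichotomy β γ with h | h | h
    · exact horth β γ h A hAγ B hBβ
    · subst h
      by_contra hinf
      exact hAB (fam_ad hAγ hBβ hinf)
    · rw [inter_comm]
      exact horth γ β h B hBβ A hAγ
  · intro b hbinf
    by_contra hcon
    push Not at hcon
    have hunc : ∀ γ, ∀ A ∈ Fam (P γ), (A ∩ b).Finite := by
      intro γ A hA
      have := hcon A (mem_iUnion.2 ⟨γ, hA⟩)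
      exact this
    have hrank := fun γ => exists_rank (hcoh γ) b (hunc γ)
    choose ρ hρ using hrank
    have hbound : ∀ β : W, ∃ δ : W, ∀ x y, ρ β x y < δ := by
      intro β
      obtain ⟨δ, hδ⟩ := W_bdd (range (fun p : ℕ × ℕ => ρ β p.1 p.2)) (countable_range _)
      exact ⟨δ, fun x y => hδ _ ⟨(x, y), rfl⟩⟩
    choose F hF using hbound
    obtain ⟨χ, hχ, Pc, a, h1, h2, h3⟩ := hrich b hbinf
    obtain ⟨γ, heγ, hγ⟩ := he χ hχ F
    obtain ⟨j₀, hj₀⟩ := (h3 (hc ∅ (fun _ _ _ => 0))).nonempty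
    obtain ⟨m₀, hm₀⟩ := (h1 j₀).1.nonempty
    have := stage_catch (γ := γ) (χ := e γ) (i := i γ) (dec := dec γ)
        (Q := fun β _ => P β) b Pc a h1 (by rw [heγ]; exact h2) h3 (i γ)
        (hdec γ) (dec γ) (hdec γ) ρ (fun β hβ x y => (hF β x y).trans (hγ β hβ))
        (fun β _ => hρ β) j₀ hj₀ m₀ hm₀
    obtain ⟨A, hA, hAb, -⟩ := this
    rw [← hP γ] at hA
    have h1 : (A ∩ b).Finite := hunc γ A hA
    rw [inter_eq_left.2 hAb] at h1
    exact hA.1 h1

/-- the closed subset of the Cantor space attached to a pair code -/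
def FF (Q : PCode) : Set (ℕ → Bool) :=
  {x | ∀ y y', y < y' → x y = true → x y' = true →
    Q y y' = some ((Finset.range y).filter (fun m => x m = true))}

theorem isClosed_FF (Q : PCode) : IsClosed (FF Q) := by
  have h : FF Q = ⋂ y, ⋂ y', {x : ℕ → Bool | y < y' → x y = true → x y' = true →
      Q y y' = some ((Finset.range y).filter (fun m => x m = true))} := by
    ext x
    simp [FF]
  rw [h]
  apply isClosed_iInter
  intro y
  apply isClosed_iInter
  intro y'
  -- the condition depends only on finitely many coordinates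
  let res : (ℕ → Bool) → (Fin (y + y' + 1) → Bool) := fun x k => x k
  have hres : Continuous res := by
    apply continuous_pi
    intro k
    exact continuous_apply _
  let K : Set (Fin (y + y' + 1) → Bool) := {z | y < y' → z ⟨y, by omega⟩ = true →
    z ⟨y', by omega⟩ = true →
    Q y y' = some ((Finset.range y).filter
      (fun m => if h : m < y + y' + 1 then z ⟨m, h⟩ = true else False))}
  have hK : IsClosed K := isClosed_discrete K
  have : {x : ℕ → Bool | y < y' → x y = true → x y' = true →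
      Q y y' = some ((Finset.range y).filter (fun m => x m = true))} = res ⁻¹' K := by
    ext x
    have h1 : (Finset.range y).filter (fun m => x m = true) =
        (Finset.range y).filter
          (fun m => if h : m < y + y' + 1 then res x ⟨m, h⟩ = true else False) := by
      apply Finset.filter_congr
      intro m hm
      have hm' : m < y + y' + 1 := by
        have := Finset.mem_range.1 hm
        omega
      simp [res, hm']
    constructor
    · intro hx hlt hy hy'
      rw [← h1]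
      exact hx hlt hy hy'
    · intro hx hlt hy hy'
      rw [h1]
      exact hx hlt hy hy'
  rw [this]
  exact hK.preimage hres

theorem Fam_eq (Q : PCode) :
    Fam Q = {a : Set ℕ | a.Infinite ∧ ∃ x ∈ FF Q, a = {n | x n = true}} := by
  classical
  ext a
  constructor
  · rintro ⟨hinf, ha⟩
    refine ⟨hinf, fun n => decide (n ∈ a), ?_, ?_⟩
    · intro y y' hlt hy hy'
      have hy1 : y ∈ a := by simpa using hy
      have hy2 : y' ∈ a := by simpa using hy'
      obtain ⟨s, hs, hsa⟩ := ha y hy1 y' hy2 hlt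
      rw [hs]
      congr 1
      ext m
      rw [hsa m]
      simp [and_comm]
    · ext n
      simp
  · rintro ⟨hinf, x, hx, rfl⟩
    refine ⟨hinf, ?_⟩
    intro y hy y' hy' hlt
    refine ⟨_, hx y y' hlt hy hy', ?_⟩
    intro m
    simp [and_comm]

theorem goal_MT : Goal_MT := by
  intro 𝒳 h𝒳 hrich
  obtain ⟨P, h1, h2, h3⟩ := main_abs 𝒳 h𝒳 hrich
  refine ⟨range (fun γ => Fam (P γ)), ?_, ?_, ?_, ?_, ?_⟩
  · have : #(range (fun γ => Fam (P γ))) ≤ #W := mk_range_le
    exact this.trans_eq W_card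
  · rintro _ ⟨γ, rfl⟩
    exact ⟨FF (P γ), isClosed_FF _, Fam_eq _⟩
  · rwa [sUnion_range]
  · rwa [sUnion_range]
  · rwa [sUnion_range]

end Pool.Agent.Helper81.SB
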