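import Pool.Agent.Helper81.SB.Goals

/-! Basic facts on `W`. -/

set_option autoImplicit false

namespace Pool.Agent.Helper81.SB

open Set Cardinal Filter

theorem W_Iio (γ : W) : (Iio γ).Countable := by
  have h := Cardinal.mk_Iio_toType_ord_lt γ
  rw [← le_aleph0_iff_set_countable]
  exact Order.lt_succ_iff.1 (h.trans_eq succ_aleph0.symm)

theorem W_not_countable : ¬ Countable W := by
  intro hc
  have h1 : #(Cardinal.ord ℵ₁).ToType ≤ ℵ₀ := mk_le_aleph0
  rw [mk_ord_toType] at h1
  exact absurd h1 (not_le.2 aleph0_lt_aleph_one)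

theorem W_card : #W = ℵ₁ := mk_ord_toType _

theorem W_bdd (S : Set W) (hS : S.Countable) : ∃ γ, ∀ s ∈ S, s < γ := by
  by_contra hcon
  push Not at hcon
  have hcof : IsCofinal S := by
    intro x
    obtain ⟨s, hs, h⟩ := hcon x
    exact ⟨s, hs, h⟩
  have h1 := Order.cof_le hcof
  have h2 : #S ≤ ℵ₀ := by
    rw [le_aleph0_iff_set_countable]
    exact hS
  have h3 : Order.cof (Cardinal.ord ℵ₁).ToType = ℵ₁ := by
    rw [Ordinal.cof_toType]
    exact isRegular_aleph_one.cof_ord
  rw [h3] at h1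
  exact absurd (h1.trans h2) (not_le.2 aleph0_lt_aleph_one)

instance : Nonempty W := by
  by_contra h
  rw [not_nonempty_iff] at h
  exact W_not_countable inferInstance

/-- an uncountable set is unbounded -/
theorem exists_gt_of_not_countable {Γ : Set W} (hΓ : ¬ Γ.Countable) (β : W) : ∃ α ∈ Γ, β < α := by
  by_contra hcon
  push Not at hcon
  apply hΓ
  have : Γ ⊆ insert β (Iio β) := by
    intro α hα
    rcases (hcon α hα).lt_or_eq with h | h
    · exact mem_insert_of_mem _ h
    · rw [h]; exact mem_insert _ _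
  exact ((W_Iio β).insert β).mono this

/-- closure points -/
theorem exists_closed (F : W → W) (α : W) : ∃ γ, α < γ ∧ ∀ β < γ, F β < γ := by
  have hG : ∀ δ : W, ∃ γ, δ < γ ∧ ∀ β ≤ δ, F β < γ := by
    intro δ
    have hcount : (insert δ (F '' (Iic δ))).Countable := by
      apply Countable.insert
      apply Countable.image
      have : (Iic δ : Set W) = insert δ (Iio δ) := by
        ext x
        simp [le_iff_eq_or_lt]
      rw [this]
      exact (W_Iio δ).insert δ
    obtain ⟨γ, hγ⟩ := W_bdd _ hcount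
    refine ⟨γ, hγ δ (mem_insert _ _), fun β hβ => hγ _ (mem_insert_of_mem _ ⟨β, hβ, rfl⟩)⟩
  choose G hG1 hG2 using hG
  let g : ℕ → W := fun n => Nat.rec α (fun _ x => G x) n
  have hg0 : g 0 = α := rfl
  have hgs : ∀ n, g (n + 1) = G (g n) := fun n => rfl
  obtain ⟨γ₁, hγ₁⟩ := W_bdd (range g) (countable_range g)
  have hne : {γ : W | ∀ n, g n < γ}.Nonempty := ⟨γ₁, fun n => hγ₁ _ ⟨n, rfl⟩⟩
  obtain ⟨γ, hγ, hmin⟩ := WellFounded.has_min (wellFounded_lt (α := W)) _ hne
  refine ⟨γ, by simpa [hg0] using hγ 0, ?_⟩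
  intro β hβ
  have hnot : ¬ ∀ n, g n < β := fun h => hmin β h hβ
  push Not at hnot
  obtain ⟨n, hn⟩ := hnot
  calc F β < G (g n) := hG2 (g n) β hn
    _ = g (n + 1) := (hgs n).symm
    _ < γ := hγ (n + 1)

/-- a map from an uncountable set to a countable type is constant on an uncountable subset -/
theorem exists_fiber {ι : Type} [Countable ι] {Γ : Set W} (hΓ : ¬ Γ.Countable) (f : W → ι) :
    ∃ i, ¬ {α | α ∈ Γ ∧ f α = i}.Countable := by
  by_contra hcon
  push Not at hcon
  apply hΓ
  have : Γ = ⋃ i, {α | α ∈ Γ ∧ f α = i} := by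
    ext x
    simp
  rw [this]
  exact countable_iUnion hcon

/-- a nonempty set of cardinality at most `ℵ₁` is a range -/
theorem exists_surj {α : Type} (S : Set α) (hS : #S ≤ ℵ₁) (hne : S.Nonempty) :
    ∃ x : W → α, range x = S := by
  have hle : #S ≤ #W := hS.trans_eq W_card.symm
  obtain ⟨emb⟩ := Cardinal.le_def _ _ |>.1 hle
  have : Nonempty S := hne.to_subtype
  refine ⟨fun w => (Function.invFun emb w).1, ?_⟩
  ext y
  constructor
  · rintro ⟨w, rfl⟩
    exact (Function.invFun emb w).2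
  · intro hy
    obtain ⟨w, hw⟩ := Function.invFun_surjective emb.injective ⟨y, hy⟩
    exact ⟨w, congrArg Subtype.val hw⟩

end Pool.Agent.Helper81.SB
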