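import Pool.Agent.Helper81.SB.Basic

/-!
# Project SB: pair codes of closed almost disjoint families, ranks, one stage of the construction
-/

set_option autoImplicit false

namespace Pool.Agent.Helper81.SB

open Set Cardinal Filter

/-- pair code: for `y < y'` either nothing, or the finite set of predecessors of `y` -/
abbrev PCode := ℕ → ℕ → Option (Finset ℕ)

/-- the family of infinite sets coded by a pair code -/
def Fam (Q : PCode) : Set (Set ℕ) :=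
  {A | A.Infinite ∧ ∀ y ∈ A, ∀ y' ∈ A, y < y' →
    ∃ s : Finset ℕ, Q y y' = some s ∧ ∀ m, m ∈ s ↔ (m ∈ A ∧ m < y)}

/-- coherence of a pair code -/
def Coh (Q : PCode) : Prop :=
  ∀ y y' s, Q y y' = some s → ∀ x ∈ s, x < y ∧ Q x y = some (s.filter (· < x))

theorem fam_ad {Q : PCode} {A B : Set ℕ} (hA : A ∈ Fam Q) (hB : B ∈ Fam Q)
    (h : (A ∩ B).Infinite) : A = B := by
  have key : ∀ A B : Set ℕ, A ∈ Fam Q → B ∈ Fam Q → (A ∩ B).Infinite → A ⊆ B := by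
    intro A B hA hB h x hx
    obtain ⟨y, ⟨hyA, hyB⟩, hxy⟩ := h.exists_gt x
    obtain ⟨y', ⟨hyA', hyB'⟩, hyy'⟩ := h.exists_gt y
    obtain ⟨s, hs, hsA⟩ := hA.2 y hyA y' hyA' hyy'
    obtain ⟨t, ht, htB⟩ := hB.2 y hyB y' hyB' hyy'
    have hst : s = t := by
      have := hs.symm.trans ht
      simpa using this
    subst hst
    exact ((htB x).1 ((hsA x).2 ⟨hx, hxy⟩)).1
  exact Subset.antisymm (key A B hA hB h) (key B A hB hA (by rwa [inter_comm]))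

/-- an infinite chain is contained in a member of the family -/
theorem fam_of_chain {Q : PCode} (hQ : Coh Q) (f : ℕ → ℕ) (hlt : ∀ n, f n < f (n + 1))
    (hf : ∀ n, ∃ s, Q (f (n + 1)) (f (n + 2)) = some s ∧ f n ∈ s) :
    ∃ A ∈ Fam Q, ∀ n, f n ∈ A := by
  have hmono : StrictMono f := strictMono_nat_of_lt_succ hlt
  choose s hs hm using hf
  have hbd : ∀ n x, x ∈ s n → x < f (n + 1) := fun n x hx => (hQ _ _ _ (hs n) x hx).1
  have hstep : ∀ n, s n = (s (n + 1)).filter (· < f (n + 1)) := by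
    intro n
    have h1 := (hQ _ _ _ (hs (n + 1)) _ (hm (n + 1))).2
    have h2 := (hs n).symm.trans h1
    simpa using h2
  have hall : ∀ d n x, x ∈ s n ↔ (x ∈ s (n + d) ∧ x < f (n + 1)) := by
    intro d
    induction d with
    | zero =>
      intro n x
      exact ⟨fun hx => ⟨hx, hbd n x hx⟩, fun hx => hx.1⟩
    | succ d ih =>
      intro n x
      rw [ih n x, ← add_assoc]
      have h1 : x ∈ s (n + d) ↔ (x ∈ s (n + d + 1) ∧ x < f (n + d + 1)) := by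
        rw [hstep (n + d), Finset.mem_filter]
      rw [h1]
      constructor
      · rintro ⟨⟨h2, _⟩, h3⟩
        exact ⟨h2, h3⟩
      · rintro ⟨h2, h3⟩
        exact ⟨⟨h2, lt_of_lt_of_le h3 (hmono.monotone (by omega))⟩, h3⟩
  have hle : ∀ m n x, m ≤ n → (x ∈ s m ↔ (x ∈ s n ∧ x < f (m + 1))) := by
    intro m n x hmn
    obtain ⟨d, rfl⟩ := Nat.exists_eq_add_of_le hmn
    exact hall d m x
  refine ⟨{x | ∃ n, x ∈ s n}, ⟨?_, ?_⟩, fun n => ⟨n, hm n⟩⟩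
  · apply Set.infinite_of_injective_forall_mem (f := f) hmono.injective
    intro n
    exact ⟨n, hm n⟩
  · rintro y ⟨n₁, hy₁⟩ y' ⟨n₂, hy₂⟩ hyy'
    set n := max n₁ n₂ with hn
    have hy : y ∈ s n := ((hle n₁ n y (le_max_left _ _)).1 hy₁).1
    have hy' : y' ∈ s n := ((hle n₂ n y' (le_max_right _ _)).1 hy₂).1
    have h1 := (hQ _ _ _ (hs n) y' hy').2
    have h2 := (hQ _ _ _ h1 y (Finset.mem_filter.2 ⟨hy, hyy'⟩)).2
    refine ⟨_, h2, fun m => ?_⟩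
    rw [Finset.mem_filter, Finset.mem_filter]
    constructor
    · rintro ⟨⟨h3, _⟩, h5⟩
      exact ⟨⟨n, h3⟩, h5⟩
    · rintro ⟨⟨k, hk⟩, h5⟩
      refine ⟨⟨?_, h5.trans hyy'⟩, h5⟩
      rcases le_total n k with h | h
      · exact (hle n k m h).2 ⟨hk, h5.trans (hbd n y hy)⟩
      · exact ((hle k n m h).1 hk).1

/-- rank function for an uncaught set -/
theorem exists_rank {Q : PCode} (hQ : Coh Q) (b : Set ℕ) (hunc : ∀ A ∈ Fam Q, (A ∩ b).Finite) :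
    ∃ ρ : ℕ → ℕ → W, ∀ x ∈ b, ∀ y ∈ b, ∀ y' ∈ b, x < y → y < y' →
      (∃ s, Q y y' = some s ∧ x ∈ s) → ρ y y' < ρ x y := by
  let r : ℕ × ℕ → ℕ × ℕ → Prop := fun q p => p.2 = q.1 ∧ p.1 ∈ b ∧ p.2 ∈ b ∧ q.2 ∈ b ∧
    p.1 < p.2 ∧ q.1 < q.2 ∧ ∃ s, Q q.1 q.2 = some s ∧ p.1 ∈ s
  have hwf : WellFounded r := by
    rw [wellFounded_iff_isEmpty_descending_chain]
    constructor
    rintro ⟨F, hF⟩
    have h1 : ∀ n, (F n).2 = (F (n + 1)).1 := fun n => (hF n).1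
    obtain ⟨A, hA, hfA⟩ := fam_of_chain hQ (fun n => (F n).1)
      (fun n => by rw [← h1 n]; exact (hF n).2.2.2.2.1)
      (fun n => by
        obtain ⟨-, -, -, -, -, -, s, hs, hm⟩ := hF n
        refine ⟨s, ?_, hm⟩
        have h2 : (F (n + 2)).1 = (F (n + 1)).2 := (h1 (n + 1)).symm
        rw [h2]
        exact hs)
    have hsm : StrictMono (fun n => (F n).1) :=
      strictMono_nat_of_lt_succ (fun n => by rw [← h1 n]; exact (hF n).2.2.2.2.1)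
    refine (Set.infinite_of_injective_forall_mem (f := fun n => (F n).1) hsm.injective ?_) (hunc A hA)
    intro k
    exact ⟨hfA k, (hF k).2.1⟩
  let ρ : ℕ × ℕ → W := hwf.fix (C := fun _ => W) (fun p ih =>
    Classical.choose (W_bdd (Set.range (fun q : {q // r q p} => ih q.1 q.2)) (countable_range _)))
  refine ⟨fun x y => ρ (x, y), ?_⟩
  intro x hx y hy y' hy' hxy hyy' hs
  have hr : r (y, y') (x, y) := ⟨rfl, hx, hy, hy', hxy, hyy', hs⟩
  have h1 : ρ (x, y) = Classical.choose (W_bdd (Set.range (fun q : {q // r q (x, y)} => ρ q.1))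
      (countable_range _)) := hwf.fix_eq _ (x, y)
  have h2 := Classical.choose_spec (W_bdd (Set.range (fun q : {q // r q (x, y)} => ρ q.1))
      (countable_range _))
  show ρ (y, y') < ρ (x, y)
  rw [h1]
  exact h2 (ρ (y, y')) ⟨⟨(y, y'), hr⟩, rfl⟩

/-- the finite history attached to a finite set of numbers and labels of pairs -/
def hist (s : Finset ℕ) (R : ℕ → ℕ → ℕ → ℕ) : Finset ((ℕ × ℕ) × List ℕ) :=
  (s ×ˢ s).image (fun p => (p, (List.range (p.1 + 1)).map (R p.1 p.2)))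

/-- numerical code of the history -/
noncomputable def hc (s : Finset ℕ) (R : ℕ → ℕ → ℕ → ℕ) : ℕ := Encodable.encode (hist s R)

theorem hist_aux {s s' : Finset ℕ} {R R' : ℕ → ℕ → ℕ → ℕ} (h : hist s R = hist s' R') :
    ∀ x ∈ s, ∀ y ∈ s, x ∈ s' ∧ ∀ k ≤ x, R x y k = R' x y k := by
  intro x hx y hy
  have hmem : ((x, y), (List.range (x + 1)).map (R x y)) ∈ hist s' R' := by
    rw [← h]
    exact Finset.mem_image_of_mem _ (Finset.mk_mem_product hx hy)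
  obtain ⟨⟨x', y'⟩, hx', heq⟩ := Finset.mem_image.1 hmem
  have h1 : (x', y') = (x, y) := congrArg Prod.fst heq
  obtain ⟨rfl, rfl⟩ := Prod.mk.inj h1
  refine ⟨(Finset.mem_product.1 hx').1, ?_⟩
  have h2 : (List.range (x' + 1)).map (R' x' y') = (List.range (x' + 1)).map (R x' y') :=
    congrArg Prod.snd heq
  intro k hk
  have := List.map_inj_left.1 h2 k (List.mem_range.2 (Nat.lt_succ_of_le hk))
  exact this.symm

theorem hc_inj {s s' : Finset ℕ} {R R' : ℕ → ℕ → ℕ → ℕ} (h : hc s R = hc s' R') :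
    s = s' ∧ ∀ x ∈ s, ∀ y ∈ s, ∀ k ≤ x, R x y k = R' x y k := by
  have h' : hist s R = hist s' R' := Encodable.encode_injective h
  refine ⟨?_, fun x hx y hy => (hist_aux h' x hx y hy).2⟩
  apply Finset.Subset.antisymm
  · intro x hx
    exact (hist_aux h' x hx x hx).1
  · intro x hx
    exact (hist_aux h'.symm x hx x hx).1

theorem hc_congr {s : Finset ℕ} {R R' : ℕ → ℕ → ℕ → ℕ}
    (h : ∀ x ∈ s, ∀ y ∈ s, ∀ k ≤ x, R x y k = R' x y k) : hc s R = hc s R' := by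
  unfold hc hist
  congr 1
  apply Finset.image_congr
  rintro ⟨x, y⟩ hxy
  obtain ⟨hx, hy⟩ := Finset.mem_product.1 (Finset.mem_coe.1 hxy)
  simp only [Prod.mk.injEq, true_and]
  apply List.map_congr_left
  intro k hk
  exact h x hx y hy k (Nat.lt_succ_iff.1 (List.mem_range.1 hk))

/-- `s` with labels `R` is the set of predecessors of `y` (as seen from `y'`) at stage `γ` -/
def Good (γ : W) (χ : ℕ → ℕ → ℕ) (i : W → ℕ) (dec : ℕ → W) (Q : ∀ β : W, β < γ → PCode)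
    (y y' : ℕ) (s : Finset ℕ) (R : ℕ → ℕ → ℕ → ℕ) : Prop :=
  χ y y' = hc s R ∧ (∀ x ∈ s, x < y) ∧ (∀ x ∈ s, χ x y = hc (s.filter (· < x)) R) ∧
    (∀ x ∈ s, ∀ x' ∈ s, x < x' → χ x x' = hc (s.filter (· < x)) R) ∧
    ∀ x ∈ s, ∀ x' ∈ s, ∀ x'' ∈ s, x < x' → x' < x'' → ∀ (β : W) (hβ : β < γ), i β ≤ x →
      (∃ t, Q β hβ x' x'' = some t ∧ x ∈ t) → dec (R x' x'' (i β)) < dec (R x x' (i β))

open Classical in
/-- the pair code built at stage `γ` -/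
noncomputable def stage (γ : W) (χ : ℕ → ℕ → ℕ) (i : W → ℕ) (dec : ℕ → W)
    (Q : ∀ β : W, β < γ → PCode) : PCode := fun y y' =>
  if h : ∃ (s : Finset ℕ) (R : ℕ → ℕ → ℕ → ℕ), Good γ χ i dec Q y y' s R then some h.choose
  else none

section Stage

variable {γ : W} {χ : ℕ → ℕ → ℕ} {i : W → ℕ} {dec : ℕ → W} {Q : ∀ β : W, β < γ → PCode}

theorem stage_eq {y y' : ℕ} {s : Finset ℕ} {R : ℕ → ℕ → ℕ → ℕ} (h : Good γ χ i dec Q y y' s R) :
    stage γ χ i dec Q y y' = some s := by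
  have hex : ∃ (s : Finset ℕ) (R : ℕ → ℕ → ℕ → ℕ), Good γ χ i dec Q y y' s R := ⟨s, R, h⟩
  have h1 : stage γ χ i dec Q y y' = some hex.choose := by
    unfold stage
    exact dif_pos hex
  obtain ⟨R', hR'⟩ := hex.choose_spec
  have h2 : hc hex.choose R' = hc s R := by
    rw [← hR'.1, ← h.1]
  rw [h1, (hc_inj h2).1]

theorem stage_some {y y' : ℕ} {s : Finset ℕ} (h : stage γ χ i dec Q y y' = some s) :
    ∃ R, Good γ χ i dec Q y y' s R := by
  unfold stage at h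
  split_ifs at h with hex
  · have h1 : hex.choose = s := by simpa using h
    obtain ⟨R', hR'⟩ := hex.choose_spec
    rw [h1] at hR'
    exact ⟨R', hR'⟩

theorem filter_filter_lt (s : Finset ℕ) {z x : ℕ} (h : z < x) :
    (s.filter (· < x)).filter (· < z) = s.filter (· < z) := by
  ext m
  simp only [Finset.mem_filter]
  constructor
  · rintro ⟨⟨h1, _⟩, h2⟩
    exact ⟨h1, h2⟩
  · rintro ⟨h1, h2⟩
    exact ⟨⟨h1, h2.trans h⟩, h2⟩

theorem good_prefix {y y' : ℕ} {s : Finset ℕ} {R : ℕ → ℕ → ℕ → ℕ}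
    (h : Good γ χ i dec Q y y' s R) {x : ℕ} (hx : x ∈ s) :
    Good γ χ i dec Q x y (s.filter (· < x)) R := by
  refine ⟨h.2.2.1 x hx, ?_, ?_, ?_, ?_⟩
  · intro z hz
    exact (Finset.mem_filter.1 hz).2
  · intro z hz
    obtain ⟨hzs, hzx⟩ := Finset.mem_filter.1 hz
    rw [filter_filter_lt s hzx]
    exact h.2.2.2.1 z hzs x hx hzx
  · intro z hz z' hz' hzz'
    obtain ⟨hzs, hzx⟩ := Finset.mem_filter.1 hz
    rw [filter_filter_lt s hzx]
    exact h.2.2.2.1 z hzs z' (Finset.mem_filter.1 hz').1 hzz'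
  · intro z hz z' hz' z'' hz'' h1 h2 β hβ hi hrel
    exact h.2.2.2.2 z (Finset.mem_filter.1 hz).1 z' (Finset.mem_filter.1 hz').1 z''
      (Finset.mem_filter.1 hz'').1 h1 h2 β hβ hi hrel

theorem stage_coh : Coh (stage γ χ i dec Q) := by
  intro y y' s hs x hx
  obtain ⟨R, hR⟩ := stage_some hs
  exact ⟨hR.2.1 x hx, stage_eq (good_prefix hR hx)⟩

/-- members of the stage family are orthogonal to the previous families -/
theorem stage_orth {A : Set ℕ} (hA : A ∈ Fam (stage γ χ i dec Q))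
    {β : W} (hβ : β < γ) {B : Set ℕ} (hB : B ∈ Fam (Q β hβ)) : (A ∩ B).Finite := by
  by_contra hinf
  have hinf : (A ∩ B).Infinite := hinf
  have hsucc : ∀ n : A, ∃ n' ∈ A, n.1 < n' ∧ ∀ m ∈ A, n.1 < m → n' ≤ m := by
    intro n
    obtain ⟨n₁, h1, h2⟩ := hA.1.exists_gt n.1
    classical
    have hne : ∃ m, m ∈ A ∧ n.1 < m := ⟨n₁, h1, h2⟩
    exact ⟨Nat.find hne, (Nat.find_spec hne).1, (Nat.find_spec hne).2,
      fun m hm hlt => Nat.find_min' hne ⟨hm, hlt⟩⟩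
  have hdata : ∀ n : A, ∃ (n' : ℕ) (s : Finset ℕ) (R : ℕ → ℕ → ℕ → ℕ), n' ∈ A ∧ n.1 < n' ∧
      (∀ m ∈ A, n.1 < m → n' ≤ m) ∧ Good γ χ i dec Q n.1 n' s R ∧
      ∀ m, m ∈ s ↔ (m ∈ A ∧ m < n.1) := by
    intro n
    obtain ⟨n', h1, h2, h3⟩ := hsucc n
    obtain ⟨s, hs, hsA⟩ := hA.2 n.1 n.2 n' h1 h2
    obtain ⟨R, hR⟩ := stage_some hs
    exact ⟨n', s, R, h1, h2, h3, hR, hsA⟩
  choose sc s R hscA hsc hscmin hG hs using hdata
  -- labels agree
  have hagree : ∀ n n' : A, n.1 < n'.1 → ∀ x ∈ A, ∀ y ∈ A, x < n.1 → y < n.1 → ∀ k ≤ x,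
      R n x y k = R n' x y k := by
    intro n n' hnn' x hx y hy hxn hyn k hk
    have h1 : n.1 ∈ s n' := (hs n' n.1).2 ⟨n.2, hnn'⟩
    have h0 : χ n.1 (sc n) = hc ((s n').filter (· < n.1)) (R n') := by
      rcases (hscmin n n'.1 n'.2 hnn').lt_or_eq with h | h
      · exact (hG n').2.2.2.1 n.1 h1 (sc n) ((hs n' (sc n)).2 ⟨hscA n, h⟩) (hsc n)
      · rw [h]
        exact (hG n').2.2.1 n.1 h1
    have h3 : hc (s n) (R n) = hc ((s n').filter (· < n.1)) (R n') := by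
      rw [← h0, ← (hG n).1]
    exact (hc_inj h3).2 x ((hs n x).2 ⟨hx, hxn⟩) y ((hs n y).2 ⟨hy, hyn⟩) k hk
  have hnext : ∀ x : ℕ, ∃ n : A, x < n.1 := by
    intro x
    obtain ⟨n, hn, hxn⟩ := hA.1.exists_gt x
    exact ⟨⟨n, hn⟩, hxn⟩
  choose ν hν using hnext
  let f : ℕ × ℕ → W := fun p => dec (R (ν (max p.1 p.2)) p.1 p.2 (i β))
  have hf : ∀ n : A, ∀ x ∈ A, ∀ y ∈ A, x < n.1 → y < n.1 → i β ≤ x →
      f (x, y) = dec (R n x y (i β)) := by
    intro n x hx y hy hxn hyn hix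
    show dec (R (ν (max x y)) x y (i β)) = dec (R n x y (i β))
    have h1 : x < (ν (max x y)).1 := (le_max_left _ _).trans_lt (hν _)
    have h2 : y < (ν (max x y)).1 := (le_max_right _ _).trans_lt (hν _)
    rcases lt_trichotomy (ν (max x y)).1 n.1 with h | h | h
    · rw [hagree _ _ h x hx y hy h1 h2 _ hix]
    · have : ν (max x y) = n := Subtype.ext h
      rw [this]
    · rw [hagree _ _ h x hx y hy hxn hyn _ hix]
  -- the infinite set on which f decreases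
  let X : Set (ℕ × ℕ) := {p | p.1 ∈ A ∩ B ∧ p.2 ∈ A ∩ B ∧ p.1 < p.2 ∧ i β ≤ p.1}
  have hX : X.Nonempty := by
    obtain ⟨x, hx, hix⟩ := hinf.exists_gt (i β)
    obtain ⟨y, hy, hxy⟩ := hinf.exists_gt x
    exact ⟨(x, y), hx, hy, hxy, hix.le⟩
  have hne : (f '' X).Nonempty := hX.image f
  obtain ⟨o, ho, hmin⟩ := WellFounded.has_min (wellFounded_lt (α := W)) _ hne
  obtain ⟨⟨x, y⟩, ⟨hxAB, hyAB, hxy, hix⟩, rfl⟩ := ho
  obtain ⟨z, hzAB, hyz⟩ := hinf.exists_gt y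
  obtain ⟨n, hn, hzn⟩ := hA.1.exists_gt z
  have hyn := hyz.trans hzn
  have hxn := hxy.trans hyn
  have h1 : f (x, y) = dec (R ⟨n, hn⟩ x y (i β)) := hf ⟨n, hn⟩ x hxAB.1 y hyAB.1 hxn hyn hix
  have h2 : f (y, z) = dec (R ⟨n, hn⟩ y z (i β)) :=
    hf ⟨n, hn⟩ y hyAB.1 z hzAB.1 hyn hzn (hix.trans hxy.le)
  have h3 : f (y, z) < f (x, y) := by
    rw [h1, h2]
    obtain ⟨t, ht, htB⟩ := hB.2 y hyAB.2 z hzAB.2 hyz
    exact (hG ⟨n, hn⟩).2.2.2.2 x ((hs _ x).2 ⟨hxAB.1, hxn⟩) y ((hs _ y).2 ⟨hyAB.1, hyn⟩)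
      z ((hs _ z).2 ⟨hzAB.1, hzn⟩) hxy hyz β hβ hix ⟨t, ht, (htB x).2 ⟨hxAB.2, hxy⟩⟩
  exact hmin (f (y, z)) ⟨(y, z), ⟨hyAB, hzAB, hyz, hix.trans hxy.le⟩, rfl⟩ h3

/-- catching: a set on which `χ` is rich and all of whose rank functions are small is caught -/
theorem stage_catch (b : Set ℕ) (P : ℕ → Set ℕ) (a : ℕ → ℕ)
    (hP : ∀ j, (P j).Infinite ∧ P j ⊆ b)
    (hχ : ∀ j j', j < j' → ∀ k ∈ P j, ∀ l ∈ P j', k < l → χ k l = a j)
    (ha : ∀ n, {j | a j = n}.Infinite)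
    (enc : W → ℕ) (henc : ∀ α < γ, dec (enc α) = α) (δ : ℕ → W) (hδ : ∀ β < γ, δ (i β) = β)
    (ρ : W → ℕ → ℕ → W) (hργ : ∀ β < γ, ∀ x y, ρ β x y < γ)
    (hρ : ∀ (β : W) (hβ : β < γ), ∀ x ∈ b, ∀ y ∈ b, ∀ y' ∈ b, x < y → y < y' →
      (∃ s, Q β hβ y y' = some s ∧ x ∈ s) → ρ β y y' < ρ β x y)
    (j₀ : ℕ) (hj₀ : a j₀ = hc ∅ (fun _ _ _ => 0)) (m₀ : ℕ) (hm₀ : m₀ ∈ P j₀) :
    ∃ A ∈ Fam (stage γ χ i dec Q), A ⊆ b ∧ m₀ ∈ A ∧ ∀ x ∈ A, m₀ ≤ x := by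
  let R : ℕ → ℕ → ℕ → ℕ := fun x y k => enc (ρ (δ k) x y)
  have hidx : ∀ (F : Finset ℕ) (j : ℕ), ∃ j', j < j' ∧ a j' = hc F R := by
    intro F j
    obtain ⟨j', h1, h2⟩ := (ha (hc F R)).exists_gt j
    exact ⟨j', h2, h1⟩
  choose pI hpI hpIa using hidx
  have hel : ∀ (F : Finset ℕ) (j : ℕ), ∃ k ∈ P j, ∀ x ∈ F, x < k := by
    intro F j
    obtain ⟨k, hk, hlt⟩ := (hP j).1.exists_gt (F.sup id)
    exact ⟨k, hk, fun x hx => lt_of_le_of_lt (Finset.le_sup (f := id) hx) hlt⟩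
  choose pE hpE hpElt using hel
  let st : ℕ → Finset ℕ × ℕ × ℕ := fun n => Nat.rec ((∅ : Finset ℕ), j₀, m₀)
    (fun _ p => (insert p.2.2 p.1, pI (insert p.2.2 p.1) p.2.1,
      pE (insert p.2.2 p.1) (pI (insert p.2.2 p.1) p.2.1))) n
  let G : ℕ → Finset ℕ := fun n => (st n).1
  let idx : ℕ → ℕ := fun n => (st n).2.1
  let κ : ℕ → ℕ := fun n => (st n).2.2
  have hG0 : G 0 = ∅ := rfl
  have hGs : ∀ n, G (n + 1) = insert (κ n) (G n) := fun n => rfl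
  have hi0 : idx 0 = j₀ := rfl
  have his : ∀ n, idx (n + 1) = pI (G (n + 1)) (idx n) := fun n => rfl
  have hk0 : κ 0 = m₀ := rfl
  have hks : ∀ n, κ (n + 1) = pE (G (n + 1)) (idx (n + 1)) := fun n => rfl
  have hmemG : ∀ n x, x ∈ G n ↔ ∃ m < n, x = κ m := by
    intro n
    induction n with
    | zero => intro x; simp [hG0]
    | succ n ih =>
      intro x
      rw [hGs, Finset.mem_insert, ih x]
      constructor
      · rintro (h | ⟨m, hm, h⟩)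
        · exact ⟨n, Nat.lt_succ_self n, h⟩
        · exact ⟨m, hm.trans (Nat.lt_succ_self n), h⟩
      · rintro ⟨m, hm, h⟩
        rcases Nat.lt_succ_iff_lt_or_eq.1 hm with hm | hm
        · exact Or.inr ⟨m, hm, h⟩
        · left; rw [h, hm]
  have hκP : ∀ n, κ n ∈ P (idx n) := by
    intro n
    cases n with
    | zero => exact hm₀
    | succ n => rw [hks]; exact hpE _ _
  have hκlt : ∀ m n, m < n → κ m < κ n := by
    intro m n hmn
    cases n with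
    | zero => omega
    | succ n =>
      rw [hks n]
      exact hpElt _ _ _ ((hmemG _ _).2 ⟨m, hmn, rfl⟩)
  have hκsm : StrictMono κ := fun m n h => hκlt m n h
  have hidxsm : StrictMono idx := by
    apply strictMono_nat_of_lt_succ
    intro n
    rw [his]
    exact hpI _ _
  have ha' : ∀ n, a (idx n) = hc (G n) R := by
    intro n
    cases n with
    | zero =>
      rw [hi0, hj₀, hG0]
      exact hc_congr (by simp)
    | succ n => rw [his]; exact hpIa _ _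
  have hχκ : ∀ m n, m < n → χ (κ m) (κ n) = hc (G m) R := by
    intro m n hmn
    rw [hχ (idx m) (idx n) (hidxsm hmn) _ (hκP m) _ (hκP n) (hκlt m n hmn), ha']
  have hfilter : ∀ m n, m ≤ n → (G n).filter (· < κ m) = G m := by
    intro m n hmn
    ext x
    rw [Finset.mem_filter, hmemG, hmemG]
    constructor
    · rintro ⟨⟨l, _, rfl⟩, hlt⟩
      exact ⟨l, hκsm.lt_iff_lt.1 hlt, rfl⟩
    · rintro ⟨l, hl, rfl⟩
      exact ⟨⟨l, hl.trans_le hmn, rfl⟩, hκlt l m hl⟩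
  have hκb : ∀ n, κ n ∈ b := fun n => (hP _).2 (hκP n)
  have hgood : ∀ m n, m < n → Good γ χ i dec Q (κ m) (κ n) (G m) R := by
    intro m n hmn
    refine ⟨hχκ m n hmn, ?_, ?_, ?_, ?_⟩
    · intro x hx
      obtain ⟨l, hl, rfl⟩ := (hmemG m x).1 hx
      exact hκlt l m hl
    · intro x hx
      obtain ⟨l, hl, rfl⟩ := (hmemG m x).1 hx
      rw [hfilter l m hl.le]
      exact hχκ l m hl
    · intro x hx x' hx' hxx'
      obtain ⟨l, hl, rfl⟩ := (hmemG m x).1 hx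
      obtain ⟨l', hl', rfl⟩ := (hmemG m x').1 hx'
      rw [hfilter l m hl.le]
      exact hχκ l l' (hκsm.lt_iff_lt.1 hxx')
    · intro x hx x' hx' x'' hx'' h1 h2 β hβ _ hrel
      obtain ⟨l, _, rfl⟩ := (hmemG m x).1 hx
      obtain ⟨l', _, rfl⟩ := (hmemG m x').1 hx'
      obtain ⟨l'', _, rfl⟩ := (hmemG m x'').1 hx''
      show dec (enc (ρ (δ (i β)) _ _)) < dec (enc (ρ (δ (i β)) _ _))
      rw [hδ β hβ, henc _ (hργ β hβ _ _), henc _ (hργ β hβ _ _)]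
      exact hρ β hβ _ (hκb l) _ (hκb l') _ (hκb l'') h1 h2 hrel
  refine ⟨Set.range κ, ⟨Set.infinite_range_of_injective hκsm.injective, ?_⟩, ?_, ?_, ?_⟩
  · rintro _ ⟨m, rfl⟩ _ ⟨n, rfl⟩ hmn
    refine ⟨G m, stage_eq (hgood m n (hκsm.lt_iff_lt.1 hmn)), ?_⟩
    intro x
    rw [hmemG]
    constructor
    · rintro ⟨l, hl, rfl⟩
      exact ⟨⟨l, rfl⟩, hκlt l m hl⟩
    · rintro ⟨⟨l, rfl⟩, hlt⟩
      exact ⟨l, hκsm.lt_iff_lt.1 hlt, rfl⟩
  · rintro _ ⟨n, rfl⟩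
    exact hκb n
  · exact ⟨0, hk0⟩
  · rintro _ ⟨n, rfl⟩
    rw [← hk0]
    exact hκsm.monotone (Nat.zero_le n)

end Stage

end Pool.Agent.Helper81.SB
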