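import Mathlib

/-!
# Project SB (MP_340b06_lc, helper81): `s = ℵ₁` and (`b = ℵ₁` or stick `= ℵ₁`) imply `a_closed = ℵ₁`

`W` = the first uncountable ordinal as a well-ordered type.  Facts on `W` (see `Basic.lean`): every `Iio γ` is
countable, every countable subset is strictly bounded, `W` is uncountable, `#W = ℵ₁`.

Idea.  Let `x_ξ` (`ξ ∈ W`) be a splitting family and `b ⊆ ℕ` infinite.  Take an ultrafilter `𝒰 ∋ b` and
`t(ξ) = 1` iff `x_ξ ∈ 𝒰`.  The set `D` of all `ξ` such that for every finite `F ⊆ Iio ξ` infinitely many `k ∈ b`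
agree with `t` on `F` and disagree with `t` at `ξ` is uncountable.  If `C ⊆ W` has finite initial segments, then the
first `ξ ∈ C` at which `x_ξ` separates `k` and `l` gives an ultrametric, and the levels in `C ∩ D` can be
prescribed.  By the oscillation theorem of Todorcevic (from an unbounded chain of length `ω₁`) and a second use of
`b = ℵ₁`, there are `ℵ₁` pairs `(C, f)` such that every uncountable `D` has one with all `f⁻¹(n) ∩ C ∩ D` infinite.
-/

set_option autoImplicit false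

namespace Pool.Agent.Helper81.SB

open Set Cardinal Filter

/-- the first uncountable ordinal as a well-ordered type -/
abbrev W : Type := (Cardinal.ord ℵ₁).ToType

/-- `D` is not dominated by a single function -/
def Unbounded (D : Set (ℕ → ℕ)) : Prop :=
  ∀ f : ℕ → ℕ, ∃ g ∈ D, ∃ᶠ n in atTop, f n < g n

/-- `S` is a splitting family -/
def Splitting (S : Set (Set ℕ)) : Prop :=
  ∀ a : Set ℕ, a.Infinite → ∃ x ∈ S, (a ∩ x).Infinite ∧ (a \ x).Infinite

/-- the stick principle: `ℵ₁` infinite subsets of `ω₁` such that every uncountable set contains one of them -/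
def Stick : Prop :=
  ∃ 𝒯 : Set (Set W), #𝒯 ≤ ℵ₁ ∧ (∀ T ∈ 𝒯, T.Infinite) ∧ ∀ D : Set W, ¬ D.Countable → ∃ T ∈ 𝒯, T ⊆ D

/-- `ℵ₁` pairs `(C, f)`, `C` with finite initial segments, such that for every uncountable `D` there is one with
`f⁻¹(n) ∩ C ∩ D` infinite for all `n` -/
def Dag : Prop :=
  ∃ 𝒮 : Set (Set W × (W → ℕ)), #𝒮 ≤ ℵ₁ ∧ (∀ p ∈ 𝒮, ∀ ξ ∈ p.1, {η | η ∈ p.1 ∧ η < ξ}.Finite) ∧
    ∀ D : Set W, ¬ D.Countable → ∃ p ∈ 𝒮, ∀ n, {ξ | ξ ∈ p.1 ∧ ξ ∈ D ∧ p.2 ξ = n}.Infinite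

/-- the colouring `χ` of pairs `k < l` is rich on `b` -/
def Rich (χ : ℕ → ℕ → ℕ) (b : Set ℕ) : Prop :=
  ∃ (P : ℕ → Set ℕ) (a : ℕ → ℕ), (∀ i, (P i).Infinite ∧ P i ⊆ b) ∧
    (∀ i j, i < j → ∀ k ∈ P i, ∀ l ∈ P j, k < l → χ k l = a i) ∧ ∀ n, {i | a i = n}.Infinite

/-- an unbounded chain modulo finite, of length `ω₁`, of monotone functions -/
structure Scale (g : W → ℕ → ℕ) : Prop where
  mono : ∀ α, Monotone (g α)
  chain : ∀ α β, α < β → ∀ᶠ n in atTop, g α n ≤ g β n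
  unb : ∀ Γ : Set W, ¬ Γ.Countable → ∀ h : ℕ → ℕ, ∃ α ∈ Γ, ∃ n, h n < g α n

/-- `c` takes all values on pairs from every uncountable set -/
def Strong (c : W → W → ℕ) : Prop :=
  ∀ Γ : Set W, ¬ Γ.Countable → ∀ n, ∃ α ∈ Γ, ∃ β ∈ Γ, α < β ∧ c α β = n

/-- SCALE (0.5 h).  Let `h_α` (`α ∈ W`) enumerate `D` (surjection `W → D`).  By recursion on `α` choose a monotone
`g_α` with `h_α ≤ g_α` everywhere and `g_β ≤ g_α` eventually for all `β < α` (countably many; diagonalise).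
`unb`: if `g_α ≤ h` everywhere for all `α` in an uncountable `Γ`, take `h_β ∈ D` with `h n < h_β n` for infinitely many
`n` and `α ∈ Γ`, `β < α`: `h_β ≤ g_β ≤ g_α ≤ h` eventually. -/
def Goal_SCALE : Prop := ∀ D : Set (ℕ → ℕ), #D ≤ ℵ₁ → Unbounded D → ∃ g : W → ℕ → ℕ, Scale g

/-- OSC (1.5 h; Todorcevic).  `c α β` = the number of `n` with `g α n ≤ g β n` and `g β (n+1) < g α (n+1)`
(`Set.ncard`; finite for `α < β`).  Let `Γ` be uncountable.  For `A ⊆ W`, `s : ℕ → ℕ`, `L : ℕ` write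
`A[s,L] = {α ∈ A | ∀ i < L, g α i = s i}`.

(F1) For uncountable `A` there is `n` with `{α ∈ A | N ≤ g α n}` uncountable for all `N` (else all but countably many
`g α`, `α ∈ A`, are bounded by one function, against `unb`).

(F2) Let `A` be uncountable with `g α i = s i` for all `α ∈ A`, `i < L`.  There are `n ≥ L` and `s'` such that
`A' = A[s',n]` satisfies: `{α ∈ A' | N ≤ g α n}` is uncountable for all `N` (we say that `A'` branches at `n`).  (Take the least `n`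
of (F1); `n ≥ L`.  If `n > 0` then for some `N₁` the set `{α ∈ A | N₁ ≤ g α (n-1)}` is countable, so by monotonicity all but
countably many `α ∈ A` have one of finitely many restrictions to `[0,n)`; if none of these finitely many classes
worked, neither would `n`.)

(δ) Choose `δ` such that every uncountable `Γ[s,L]` contains some `α < δ` (only countably many restrictions).  Choose
an uncountable `Γ₁ ⊆ Γ`, all elements `> δ`, and `m` with `g δ n ≤ g β n` for all `β ∈ Γ₁`, `n ≥ m`.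

Claim, by induction on `k`: there are `L ≥ m`, `s`, `t`, `B ⊆ Γ₁` with `Γ[s,L]` uncountable, `g β i = t i` for `β ∈ B`,
`i < L`, `{β ∈ B | N ≤ g β L}` uncountable for all `N`, and exactly `k` numbers `n` with `n + 1 < L`, `s n ≤ t n`,
`t (n+1) < s (n+1)`.
`k = 0`: thin `Γ₁` to have constant restriction to `[0,m)`, apply (F2), `s = t`.
`k → k+1`: choose an uncountable `A ⊆ Γ[s,L]` with constant restriction to `[0,L+1)` and apply (F2) to it: `n₁ ≥ L+1`, `s'`,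
`A' = A[s',n₁]` branching at `n₁`.  Choose an uncountable `B' ⊆ B` with `s' (n₁-1) ≤ g β L` and constant restriction to
`[0,n₁+1)`; (F2) for `B'`: `n₂ ≥ n₁+1`, `t'`, `B'' = B'[t',n₂]` branching at `n₂`.  Then `s' ≤ t'` on `[L,n₁)`.  Choose an
uncountable subset of `{α ∈ A' | t' (n₂-1) < g α n₁}` with constant restriction `s''` to `[0,n₂)`.  Then `s'' > t'` on
`[n₁,n₂)`: exactly one new crossing, at `n = n₁ - 1`.  New state `(n₂, s'', t', B'')`.

End: given the state for `k`, take `α ∈ Γ[s,L]`, `α < δ`, and `n₁ ≥ L` with `g α n ≤ g δ n` for `n ≥ n₁`; take `β ∈ B` with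
`g α n₁ ≤ g β L`.  Then `g α n ≤ g β n` for all `n ≥ L` (monotonicity for `n ≤ n₁`, `g δ` for `n ≥ n₁`), so `c α β = k`. -/
def Goal_OSC : Prop := ∀ g : W → ℕ → ℕ, Scale g → ∃ c : W → W → ℕ, Strong c

/-- DAG (1.2 h).  For `h ∈ D` put `h♯ m = m + 1 + ∑ i ≤ m, h i` (monotone, `h ≤ h♯`, `m < h♯ m`), `a 0 = 0`,
`a (l+1) = h♯ (a l)`.  For `γ ∈ W` fix `enum γ : ℕ → W` with range `Iio γ` (if nonempty).  The pairs are
`C = {ξ | ∃ l j, a l ≤ j < a (l+1) ∧ enum γ j = ξ ∧ ∀ i < a l, enum γ i < ξ}`, `f ξ = c ξ β`, for `γ, β ∈ W`, `h ∈ D`; at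
most `ℵ₁` many.  Initial segments are finite: for `ξ ∈ C` as above, `η ∈ C`, `η < ξ`, `η` in block `l'`: `l' > l` would
give `ξ = enum γ j < η`; so `η ∈ enum γ '' {j' < a (l+1)}`.

Let `E ⊆ W` be uncountable.  For `ε ∈ W` and `n` the set `{β ∈ E | ε < β, ∀ α ∈ E, ε < α → α < β → c α β ≠ n}` is
countable (`Strong`: it contains no pair `α < β` with `c α β = n`).  So there is `u ε` such that for all `β ∈ E`,
`u ε ≤ β`, and all `n` there is `α ∈ E`, `ε < α < β`, `c α β = n`.  Let `γ` be closed under `u` (`∀ ε < γ, u ε < γ`; and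
`Iio γ` nonempty) and `β = min {β ∈ E | γ ≤ β}`.  Then for `ε < γ` and `n` there is `α ∈ E`, `ε < α < γ`, `c α β = n`
(`α < β`, `α ∈ E` imply `α < γ`).

Choose a monotone `F : ℕ → ℕ` with: for every `m` and `n ≤ m` there is `j`, `m ≤ j < F m`, with `enum γ j ∈ E`,
`c (enum γ j) β = n` and `enum γ i < enum γ j` for all `i < m`.  Let `h ∈ D` with `F (F n) < h n` for infinitely many `n`.
Then `F (a l) ≤ a (l+1)` for infinitely many `l`: otherwise `a (l+1) < F (a l)` for `l ≥ l₀`, and for `a l ≤ m < a (l+1)`,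
`l ≥ l₀`: `h m ≤ h♯ (a (l+1)) = a (l+2) < F (a (l+1)) ≤ F (F (a l)) ≤ F (F m)`.  Each such `l` with `n ≤ a l` gives an
element `ξ` of `C ∩ E` with `c ξ β = n` above all `enum γ i`, `i < a l`; so there are infinitely many. -/
def Goal_DAG : Prop := ∀ c : W → W → ℕ, Strong c → ∀ D : Set (ℕ → ℕ), #D ≤ ℵ₁ → Unbounded D → Dag

/-- STICK (0.4 h).  For `T ∈ 𝒯` let `C = {ξ ∈ T | {η ∈ T | η < ξ} finite}`.  It is infinite (otherwise the least element of
`T \ C` would be in `C`) and countable; take `f` with `f⁻¹(n) ∩ C` infinite for all `n` (`C ≃ ℕ`, `Nat.unpair`). -/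
def Goal_STICK : Prop := Stick → Dag

/-- SPLIT (1 h).  Let `x : W → Set ℕ` enumerate `S`.  For `(C,f) ∈ 𝒮` put `χ k l = f ξ`, `ξ` = the least element of `C`
with `¬ (k ∈ x ξ ↔ l ∈ x ξ)` (`0` if there is none).  Let `b` be infinite, `𝒰` a nonprincipal ultrafilter with `b ∈ 𝒰`
(`Ultrafilter.of (cofinite ⊓ 𝓟 b)`); `k` agrees with `t` at `ξ` means `k ∈ x ξ ↔ x ξ ∈ 𝒰`.  For finite `F` the set of
`k ∈ b` that agree with `t` on `F` is in `𝒰`, so infinite.  `D` = set of all `ξ` such that for all finite `F ⊆ Iio ξ` the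
set `{k ∈ b | k agrees with t on F, not at ξ}` is infinite.
`D` is uncountable: otherwise `D ⊆ Iio β`.  `Iio β` is countable, so there is an infinite `b' ⊆ b` such that for every
`ξ < β` almost all `k ∈ b'` agree with `t` at `ξ`.  Some `x ξ` splits `b'`; let `ξ` be least such that infinitely many
`k ∈ b'` do not agree with `t` at `ξ`.  Then `β ≤ ξ`, and `ξ ∈ D`: contradiction.
Let `(C,f) ∈ 𝒮` be as in `Dag` for `D`; `C ∩ D` is infinite with finite initial segments; enumerate it increasingly: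
`ξ_0 < ξ_1 < ...` (`Nat.Subtype.orderIsoOfNat`-like, or `exists_seq`), `a i = f ξ_i`,
`P i = {k ∈ b | k agrees with t on C ∩ Iio ξ_i, not at ξ_i}`.  For `i < j`, `k ∈ P i`, `l ∈ P j`: `l` agrees with `t` on
`C ∩ Iic ξ_i`, so the first difference in `C` of `k`, `l` is `ξ_i`: `χ k l = f ξ_i`. -/
def Goal_SPLIT : Prop := ∀ S : Set (Set ℕ), #S ≤ ℵ₁ → Splitting S → Dag →
  ∃ 𝒳 : Set (ℕ → ℕ → ℕ), #𝒳 ≤ ℵ₁ ∧ ∀ b : Set ℕ, b.Infinite → ∃ χ ∈ 𝒳, Rich χ b

/-- MT (helper81). -/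
def Goal_MT : Prop := ∀ 𝒳 : Set (ℕ → ℕ → ℕ), #𝒳 ≤ ℵ₁ → (∀ b : Set ℕ, b.Infinite → ∃ χ ∈ 𝒳, Rich χ b) →
  ∃ 𝒞 : Set (Set (Set ℕ)), #𝒞 ≤ ℵ₁ ∧
    (∀ C ∈ 𝒞, ∃ F : Set (ℕ → Bool), IsClosed F ∧ C = {a | a.Infinite ∧ ∃ x ∈ F, a = {n | x n = true}}) ∧
    (⋃₀ 𝒞).Infinite ∧
    (∀ A ∈ ⋃₀ 𝒞, ∀ B ∈ ⋃₀ 𝒞, A ≠ B → (A ∩ B).Finite) ∧
    ∀ b : Set ℕ, b.Infinite → ∃ A ∈ ⋃₀ 𝒞, (A ∩ b).Infinite

end Pool.Agent.Helper81.SB
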